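import Pool.Agent.W289.ZS.Stm

/-!
ZS-G1: primary parts of an element.
-/

set_option autoImplicit false

namespace Pool.Agent.W174.ZS

open W289.ZS

universe u

section

variable {G : Type u} [Group G] [Fintype G]

theorem zp_pow_le {a b : G} (h : a ∈ Subgroup.zpowers b) (m : ℕ) :
    a ^ m ∈ Subgroup.zpowers (b ^ m) := by
  obtain ⟨k, rfl⟩ := Subgroup.mem_zpowers_iff.1 h
  refine Subgroup.mem_zpowers_iff.2 ⟨k, ?_⟩
  rw [← zpow_natCast, ← zpow_natCast, ← zpow_mul, ← zpow_mul, mul_comm]

theorem zp_pow_eq {a b : G} (h : Subgroup.zpowers a = Subgroup.zpowers b) (m : ℕ) :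
    Subgroup.zpowers (a ^ m) = Subgroup.zpowers (b ^ m) := by
  apply le_antisymm
  · rw [Subgroup.zpowers_le]
    exact zp_pow_le (h ▸ Subgroup.mem_zpowers a) m
  · rw [Subgroup.zpowers_le]
    exact zp_pow_le (h.symm ▸ Subgroup.mem_zpowers b) m

theorem mem_of_all (a : G) (H : Subgroup G)
    (h : ∀ p ∈ (Nat.card G).primeFactors,
      a ^ (Nat.card G / p ^ ((Nat.card G).factorization p)) ∈ H) : a ∈ H := by
  have hn : Nat.card G ≠ 0 := Nat.card_pos.ne'
  obtain ⟨S, hS⟩ : ∃ S : AddSubgroup ℤ, ∀ k : ℤ, k ∈ S ↔ a ^ k ∈ H := by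
    have h0 : a ^ (0 : ℤ) ∈ H := by rw [zpow_zero]; exact H.one_mem
    have h1 : ∀ x y : ℤ, a ^ x ∈ H → a ^ y ∈ H → a ^ (x + y) ∈ H := by
      intro x y hx hy
      rw [zpow_add]; exact H.mul_mem hx hy
    have h2 : ∀ x : ℤ, a ^ x ∈ H → a ^ (-x) ∈ H := by
      intro x hx
      rw [zpow_neg]; exact H.inv_mem hx
    exact ⟨{ carrier := {k : ℤ | a ^ k ∈ H}
             zero_mem' := h0
             add_mem' := fun {x y} hx hy => h1 x y hx hy
             neg_mem' := fun {x} hx => h2 x hx }, fun k => Iff.rfl⟩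
  obtain ⟨d, hd⟩ := Int.subgroup_cyclic S
  have hdvd : ∀ k : ℕ, a ^ k ∈ H → d.natAbs ∣ k := by
    intro k hk
    have h1 : (k : ℤ) ∈ S := by rw [hS, zpow_natCast]; exact hk
    rw [hd, AddSubgroup.mem_closure_singleton] at h1
    obtain ⟨l, hl⟩ := h1
    rw [← Int.natCast_dvd_natCast, Int.natAbs_dvd, ← hl]
    exact ⟨l, by rw [smul_eq_mul, mul_comm]⟩
  have hdn : d.natAbs ∣ Nat.card G := hdvd _ (by rw [pow_card_eq_one']; exact H.one_mem)
  have hd1 : d.natAbs = 1 := by
    by_contra hcon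
    obtain ⟨q, hq, hqd⟩ := Nat.exists_prime_and_dvd hcon
    have hqn : q ∣ Nat.card G := hqd.trans hdn
    have h2 := hdvd _ (h q (Nat.mem_primeFactors.2 ⟨hq, hqn, hn⟩))
    exact Nat.not_dvd_ordCompl hq hn (hqd.trans h2)
  have h3 : (1 : ℤ) ∈ S := by
    rw [hd, AddSubgroup.mem_closure_singleton]
    rcases Int.natAbs_eq_iff.1 hd1 with h4 | h4
    · exact ⟨1, by rw [h4]; simp⟩
    · exact ⟨-1, by rw [h4]; simp⟩
  rw [hS, zpow_one] at h3
  exact h3

theorem zp_eq_of_tau {a b : G} (h : tau G a = tau G b) :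
    Subgroup.zpowers a = Subgroup.zpowers b := by
  have key : ∀ x y : G, tau G x = tau G y → x ∈ Subgroup.zpowers y := by
    intro x y hxy
    apply mem_of_all
    intro p hp
    have h1 := congrFun hxy ⟨p, hp⟩
    unfold tau at h1
    simp only at h1
    have h2 : x ^ (Nat.card G / p ^ ((Nat.card G).factorization p)) ∈
        Subgroup.zpowers (y ^ (Nat.card G / p ^ ((Nat.card G).factorization p))) := by
      rw [← h1]
      exact Subgroup.mem_zpowers _
    refine (Subgroup.zpowers_le.2 ?_) h2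
    exact Subgroup.pow_mem _ (Subgroup.mem_zpowers y) _
  apply le_antisymm
  · rw [Subgroup.zpowers_le]; exact key a b h
  · rw [Subgroup.zpowers_le]; exact key b a h.symm

theorem closure_pow (c : G) (p : ℕ) :
    Subgroup.closure ((fun x => x ^ p) '' (Subgroup.zpowers c : Set G)) =
      Subgroup.zpowers (c ^ p) := by
  apply le_antisymm
  · rw [Subgroup.closure_le]
    rintro x ⟨y, hy, rfl⟩
    exact zp_pow_le hy p
  · rw [Subgroup.zpowers_le]
    exact Subgroup.subset_closure ⟨c, Subgroup.mem_zpowers c, rfl⟩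

theorem zp_coprime (c : G) (p : ℕ) (h : (orderOf c).Coprime p) :
    Subgroup.zpowers (c ^ p) = Subgroup.zpowers c := by
  apply Subgroup.eq_of_le_of_card_ge
  · rw [Subgroup.zpowers_le]
    exact Subgroup.pow_mem _ (Subgroup.mem_zpowers c) _
  · rw [Nat.card_zpowers, Nat.card_zpowers, h.orderOf_pow]

theorem order_dvd (a : G) (r : ℕ) :
    orderOf (a ^ (Nat.card G / r ^ ((Nat.card G).factorization r))) ∣
      r ^ ((Nat.card G).factorization r) := by
  rw [orderOf_dvd_iff_pow_eq_one, ← pow_mul, Nat.div_mul_cancel (Nat.ordProj_dvd _ _),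
    pow_card_eq_one']

theorem dep_eq (a : G) (i : Ix G) :
    (orderOf (a ^ (Nat.card G / i.1 ^ ((Nat.card G).factorization i.1)))).factorization i.1 =
      (orderOf a).factorization i.1 := by
  have hn : Nat.card G ≠ 0 := Nat.card_pos.ne'
  have hp : i.1.Prime := Nat.prime_of_mem_primeFactors i.2
  rw [orderOf_pow, Nat.factorization_div (Nat.gcd_dvd_left _ _)]
  have h1 : (Nat.gcd (orderOf a) (Nat.card G / i.1 ^ ((Nat.card G).factorization i.1))).factorization
      i.1 = 0 := by
    apply Nat.factorization_eq_zero_of_not_dvd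
    intro h
    exact Nat.not_dvd_ordCompl hp hn (h.trans (Nat.gcd_dvd_right _ _))
  rw [Finsupp.tsub_apply, h1, Nat.sub_zero]

end

theorem tauT : TaskTau.{u} := by
  intro G _ _
  refine ⟨?_, ?_, ?_, ?_, ?_⟩
  · intro i
    unfold tau
    simp
  · intro a b h
    exact zp_eq_of_tau h
  · intro a b h
    funext i
    exact zp_pow_eq h _
  · intro a i
    funext j
    unfold Dat.down
    by_cases hij : j = i
    · subst hij
      rw [Function.update_self]
      unfold DG tau
      simp only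
      rw [closure_pow, ← pow_mul, ← pow_mul, mul_comm]
    · rw [Function.update_of_ne hij]
      unfold tau
      have h1 : (a ^ i.1) ^ (Nat.card G / j.1 ^ ((Nat.card G).factorization j.1)) =
          (a ^ (Nat.card G / j.1 ^ ((Nat.card G).factorization j.1))) ^ i.1 := by
        rw [← pow_mul, ← pow_mul, mul_comm]
      rw [h1]
      refine (zp_coprime _ _ ?_).symm
      apply Nat.Coprime.coprime_dvd_left (order_dvd a j.1)
      apply Nat.Coprime.pow_left
      rw [Nat.coprime_primes (Nat.prime_of_mem_primeFactors j.2) (Nat.prime_of_mem_primeFactors i.2)]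
      intro h
      exact hij (Subtype.ext h)
  · intro a i
    unfold DG tau
    simp only
    rw [Nat.card_zpowers]
    exact dep_eq a i

end Pool.Agent.W174.ZS
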